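import Mathlib

/-!
# A one-sided tridiagonal pair violating the dimension statement (MP_d2cf4a_al)

We exhibit linear maps `A, A*` on `ℚ^5` satisfying conditions 1-4 with `d = δ = 2` for which
`dim V_0 = 2` and `dim V*_0 = 1`, so that part (c) of the question fails.
-/

open Module Module.End

namespace Pool.Agent.Results.MP_d2cf4a_al.DimFail

/-- `IsOrdering A B θ`: the map `A` is diagonalizable, its eigenspaces are exactly the
`V_i = eigenspace A (θ i)`, `0 ≤ i ≤ d` (all nonzero, with mutually distinct eigenvalues), and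
`B V_i ⊆ V_0 + V_1 + ... + V_{i+1}` for `0 ≤ i ≤ d`, where `V_{d+1} = 0`. -/
def IsOrdering {K V : Type*} [Field K] [AddCommGroup V] [Module K V] (A B : End K V) {d : ℕ}
    (θ : Fin (d + 1) → K) : Prop :=
  Function.Injective θ ∧ (∀ i, eigenspace A (θ i) ≠ ⊥) ∧ (⨆ i, eigenspace A (θ i)) = ⊤ ∧
    ∀ i : Fin (d + 1), (eigenspace A (θ i)).map B ≤
      ⨆ j : Fin (d + 1), ⨆ _ : j.val ≤ i.val + 1, eigenspace A (θ j)

/-- The only subspaces invariant under both maps are `0` and `V`. -/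
def IsIrreduciblePair {K V : Type*} [Field K] [AddCommGroup V] [Module K V] (A B : End K V) :
    Prop :=
  ∀ W : Submodule K V, (∀ x ∈ W, A x ∈ W) → (∀ x ∈ W, B x ∈ W) → W = ⊥ ∨ W = ⊤

/-- The map `A`. -/
def mA : End ℚ (Fin 5 → ℚ) where
  toFun w := ![2 * w 0, w 0 + w 1, w 2, w 1, w 2]
  map_add' x y := by ext i; fin_cases i <;> simp <;> ring
  map_smul' c x := by ext i; fin_cases i <;> simp <;> ring

/-- The map `A*`. -/
def mB : End ℚ (Fin 5 → ℚ) where
  toFun w := ![w 1, w 1 + w 4, w 2 + w 3, 2 * w 3, 2 * w 4]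
  map_add' x y := by ext i; fin_cases i <;> simp <;> ring
  map_smul' c x := by ext i; fin_cases i <;> simp <;> ring

lemma mA_apply (w : Fin 5 → ℚ) : mA w = ![2 * w 0, w 0 + w 1, w 2, w 1, w 2] := rfl
lemma mB_apply (w : Fin 5 → ℚ) : mB w = ![w 1, w 1 + w 4, w 2 + w 3, 2 * w 3, 2 * w 4] := rfl

/-- The eigenvalues. -/
def th : Fin 3 → ℚ := ![0, 1, 2]

lemma eq5 {v w : Fin 5 → ℚ} : v = w ↔ v 0 = w 0 ∧ v 1 = w 1 ∧ v 2 = w 2 ∧ v 3 = w 3 ∧ v 4 = w 4 := by
  constructor
  · rintro rfl; simp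
  · rintro ⟨h0, h1, h2, h3, h4⟩
    ext i; fin_cases i <;> assumption

lemma memA (c : ℚ) (w : Fin 5 → ℚ) : w ∈ eigenspace mA c ↔
    2 * w 0 = c * w 0 ∧ w 0 + w 1 = c * w 1 ∧ w 2 = c * w 2 ∧ w 1 = c * w 3 ∧ w 2 = c * w 4 := by
  rw [mem_eigenspace_iff, mA_apply, eq5]
  simp

lemma memB (c : ℚ) (w : Fin 5 → ℚ) : w ∈ eigenspace mB c ↔
    w 1 = c * w 0 ∧ w 1 + w 4 = c * w 1 ∧ w 2 + w 3 = c * w 2 ∧ 2 * w 3 = c * w 3 ∧
      2 * w 4 = c * w 4 := by
  rw [mem_eigenspace_iff, mB_apply, eq5]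
  simp

lemma th_inj : Function.Injective th := by
  intro i j h
  fin_cases i <;> fin_cases j <;> simp_all [th]

lemma mem_sup_of {S : Fin 3 → Submodule ℚ (Fin 5 → ℚ)} {p : Fin 3 → Prop} {x : Fin 5 → ℚ}
    (i : Fin 3) (hi : p i) (hx : x ∈ S i) : x ∈ ⨆ j, ⨆ _ : p j, S j :=
  Submodule.mem_iSup_of_mem i (Submodule.mem_iSup_of_mem hi hx)

lemma ordA : IsOrdering mA mB th := by
  have hall : ∀ w : Fin 5 → ℚ, ∃ a b c : Fin 5 → ℚ, a ∈ eigenspace mA 0 ∧ b ∈ eigenspace mA 1 ∧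
      c ∈ eigenspace mA 2 ∧ w = a + b + c := by
    intro w
    refine ⟨![0, 0, 0, w 3 - w 1 + w 0 / 2, w 4 - w 2], ![0, w 1 - w 0, w 2, w 1 - w 0, w 2],
      ![w 0, w 0, 0, w 0 / 2, 0], ?_, ?_, ?_, ?_⟩
    · rw [memA]; simp
    · rw [memA]; simp
    · rw [memA]; simp; ring_nf; simp
    · rw [eq5]; simp; ring
  have hsup : ∀ (p : Fin 3 → Prop), (∀ j, p j) → ∀ w, w ∈ ⨆ j, ⨆ _ : p j, eigenspace mA (th j) := by
    intro p hp w
    obtain ⟨a, b, c, ha, hb, hc, rfl⟩ := hall w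
    exact Submodule.add_mem _ (Submodule.add_mem _ (mem_sup_of 0 (hp 0) ha)
      (mem_sup_of 1 (hp 1) hb)) (mem_sup_of 2 (hp 2) hc)
  refine ⟨th_inj, ?_, ?_, ?_⟩
  · intro i h
    have hne : ∃ w, w ∈ eigenspace mA (th i) ∧ w ≠ 0 := by
      fin_cases i
      · refine ⟨![0, 0, 0, 1, 0], ?_, ?_⟩
        · simp only [th]; rw [memA]; simp
        · intro h; have := congrFun h 3; simp at this
      · refine ⟨![0, 1, 0, 1, 0], ?_, ?_⟩
        · simp only [th]; rw [memA]; simp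
        · intro h; have := congrFun h 1; simp at this
      · refine ⟨![1, 1, 0, 1 / 2, 0], ?_, ?_⟩
        · simp only [th]; rw [memA]; simp; norm_num
        · intro h; have := congrFun h 0; simp at this
    obtain ⟨w, hw, hw0⟩ := hne
    rw [h] at hw
    exact hw0 ((Submodule.mem_bot ℚ).mp hw)
  · rw [eq_top_iff]
    intro w _
    have := hsup (fun _ => True) (fun _ => trivial) w
    simpa using this
  · intro i
    fin_cases i
    · rintro _ ⟨w, hw, rfl⟩
      have hw' : w ∈ eigenspace mA 0 := hw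
      rw [memA] at hw'
      have h0 : w 0 = 0 := by linarith [hw'.1]
      have h1 : w 1 = 0 := by linarith [hw'.2.1]
      have h2 : w 2 = 0 := by linarith [hw'.2.2.1]
      have hdec : mB w = ![0, 0, 0, 2 * w 3 - w 4, 2 * w 4 - w 3] + ![0, w 4, w 3, w 4, w 3] := by
        rw [mB_apply, eq5]; simp [h1, h2]
      rw [hdec]
      refine Submodule.add_mem _ (mem_sup_of 0 (by simp) ?_) (mem_sup_of 1 (by simp) ?_)
      · simp only [th]; rw [memA]; simp
      · simp only [th]; rw [memA]; simp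
    · rintro _ ⟨w, _, rfl⟩
      exact hsup _ (fun j => by have := j.isLt; simp only; omega) _
    · rintro _ ⟨w, _, rfl⟩
      exact hsup _ (fun j => by have := j.isLt; simp only; omega) _

lemma ordB : IsOrdering mB mA th := by
  have hall : ∀ w : Fin 5 → ℚ, ∃ a b c : Fin 5 → ℚ, a ∈ eigenspace mB 0 ∧ b ∈ eigenspace mB 1 ∧
      c ∈ eigenspace mB 2 ∧ w = a + b + c := by
    intro w
    refine ⟨![w 0 - w 1 + w 4 / 2, 0, 0, 0, 0], ![w 1 - w 4, w 1 - w 4, w 2 - w 3, 0, 0],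
      ![w 4 / 2, w 4, w 3, w 3, w 4], ?_, ?_, ?_, ?_⟩
    · rw [memB]; simp
    · rw [memB]; simp
    · rw [memB]; simp; ring_nf; simp
    · rw [eq5]; simp; ring
  have hsup : ∀ (p : Fin 3 → Prop), (∀ j, p j) → ∀ w, w ∈ ⨆ j, ⨆ _ : p j, eigenspace mB (th j) := by
    intro p hp w
    obtain ⟨a, b, c, ha, hb, hc, rfl⟩ := hall w
    exact Submodule.add_mem _ (Submodule.add_mem _ (mem_sup_of 0 (hp 0) ha)
      (mem_sup_of 1 (hp 1) hb)) (mem_sup_of 2 (hp 2) hc)
  refine ⟨th_inj, ?_, ?_, ?_⟩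
  · intro i h
    have hne : ∃ w, w ∈ eigenspace mB (th i) ∧ w ≠ 0 := by
      fin_cases i
      · refine ⟨![1, 0, 0, 0, 0], ?_, ?_⟩
        · simp only [th]; rw [memB]; simp
        · intro h; have := congrFun h 0; simp at this
      · refine ⟨![1, 1, 0, 0, 0], ?_, ?_⟩
        · simp only [th]; rw [memB]; simp
        · intro h; have := congrFun h 1; simp at this
      · refine ⟨![0, 0, 1, 1, 0], ?_, ?_⟩
        · simp only [th]; rw [memB]; simp; norm_num
        · intro h; have := congrFun h 2; simp at this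
    obtain ⟨w, hw, hw0⟩ := hne
    rw [h] at hw
    exact hw0 ((Submodule.mem_bot ℚ).mp hw)
  · rw [eq_top_iff]
    intro w _
    have := hsup (fun _ => True) (fun _ => trivial) w
    simpa using this
  · intro i
    fin_cases i
    · rintro _ ⟨w, hw, rfl⟩
      have hw' : w ∈ eigenspace mB 0 := hw
      rw [memB] at hw'
      have h1 : w 1 = 0 := by linarith [hw'.1]
      have h4 : w 4 = 0 := by linarith [hw'.2.2.2.2]
      have h3 : w 3 = 0 := by linarith [hw'.2.2.2.1]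
      have h2 : w 2 = 0 := by linarith [hw'.2.2.1]
      have hdec : mA w = ![w 0, 0, 0, 0, 0] + ![w 0, w 0, 0, 0, 0] := by
        rw [mA_apply, eq5]; simp [h1, h2]; ring
      rw [hdec]
      refine Submodule.add_mem _ (mem_sup_of 0 (by simp) ?_) (mem_sup_of 1 (by simp) ?_)
      · simp only [th]; rw [memB]; simp
      · simp only [th]; rw [memB]; simp
    · rintro _ ⟨w, _, rfl⟩
      exact hsup _ (fun j => by have := j.isLt; simp only; omega) _
    · rintro _ ⟨w, _, rfl⟩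
      exact hsup _ (fun j => by have := j.isLt; simp only; omega) _

lemma irred : IsIrreduciblePair mA mB := by
  intro W hA hB
  by_cases he : (![1, 0, 0, 0, 0] : Fin 5 → ℚ) ∈ W
  · right
    have e1 : (![0, 1, 0, 0, 0] : Fin 5 → ℚ) ∈ W := by
      have h := W.sub_mem (hA _ he) (W.smul_mem 2 he)
      have h2 : mA ![1, 0, 0, 0, 0] - (2:ℚ) • (![1, 0, 0, 0, 0] : Fin 5 → ℚ) = ![0, 1, 0, 0, 0] := by
        rw [mA_apply, eq5]; simp
      rwa [h2] at h
    have e3 : (![0, 0, 0, 1, 0] : Fin 5 → ℚ) ∈ W := by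
      have h := W.sub_mem (hA _ e1) e1
      have h2 : mA ![0, 1, 0, 0, 0] - (![0, 1, 0, 0, 0] : Fin 5 → ℚ) = ![0, 0, 0, 1, 0] := by
        rw [mA_apply, eq5]; simp
      rwa [h2] at h
    have e2 : (![0, 0, 1, 0, 0] : Fin 5 → ℚ) ∈ W := by
      have h := W.sub_mem (hB _ e3) (W.smul_mem 2 e3)
      have h2 : mB ![0, 0, 0, 1, 0] - (2:ℚ) • (![0, 0, 0, 1, 0] : Fin 5 → ℚ) = ![0, 0, 1, 0, 0] := by
        rw [mB_apply, eq5]; simp
      rwa [h2] at h
    have e4 : (![0, 0, 0, 0, 1] : Fin 5 → ℚ) ∈ W := by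
      have h := W.sub_mem (hA _ e2) e2
      have h2 : mA ![0, 0, 1, 0, 0] - (![0, 0, 1, 0, 0] : Fin 5 → ℚ) = ![0, 0, 0, 0, 1] := by
        rw [mA_apply, eq5]; simp
      rwa [h2] at h
    rw [eq_top_iff]
    intro w _
    have hw : w = w 0 • ![1, 0, 0, 0, 0] + w 1 • ![0, 1, 0, 0, 0] + w 2 • ![0, 0, 1, 0, 0]
        + w 3 • ![0, 0, 0, 1, 0] + w 4 • ![0, 0, 0, 0, 1] := by
      rw [eq5]; simp
    rw [hw]
    exact W.add_mem (W.add_mem (W.add_mem (W.add_mem (W.smul_mem _ he) (W.smul_mem _ e1))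
      (W.smul_mem _ e2)) (W.smul_mem _ e3)) (W.smul_mem _ e4)
  · left
    have hrho : ∀ w ∈ W, 2 * w 0 - 2 * w 1 + w 4 = 0 := by
      intro w hw
      by_contra hne
      apply he
      have h1 : mB w - (2:ℚ) • w ∈ W := W.sub_mem (hB w hw) (W.smul_mem 2 hw)
      have h2 : mB (mB w - (2:ℚ) • w) - (mB w - (2:ℚ) • w) ∈ W := W.sub_mem (hB _ h1) h1
      have h3 : mB (mB w - (2:ℚ) • w) - (mB w - (2:ℚ) • w)
          = ![2 * w 0 - 2 * w 1 + w 4, 0, 0, 0, 0] := by
        rw [eq5]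
        simp only [mB_apply, Pi.sub_apply, Pi.smul_apply, smul_eq_mul]
        simp
        ring
      rw [h3] at h2
      have h4 := W.smul_mem (2 * w 0 - 2 * w 1 + w 4)⁻¹ h2
      have h5 : (2 * w 0 - 2 * w 1 + w 4)⁻¹ • (![2 * w 0 - 2 * w 1 + w 4, 0, 0, 0, 0] : Fin 5 → ℚ)
          = ![1, 0, 0, 0, 0] := by
        rw [eq5]; simp [hne]
      rwa [h5] at h4
    rw [eq_bot_iff]
    intro w hw
    rw [Submodule.mem_bot]
    have r1 := hrho w hw
    have r2 := hrho _ (hA w hw)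
    have r3 := hrho _ (hA _ (hB w hw))
    have r4 := hrho _ (hA _ (hB _ (hA w hw)))
    have r5 := hrho _ (hA _ (hB _ (hA _ (hA w hw))))
    simp only [mA_apply, mB_apply] at r2 r3 r4 r5
    simp at r2 r3 r4 r5
    rw [eq5]
    simp only [Pi.zero_apply]
    refine ⟨?_, ?_, ?_, ?_, ?_⟩ <;> linarith

lemma finrankA : finrank ℚ (eigenspace mA (th 0)) = 2 := by
  let e : (eigenspace mA (th 0)) ≃ₗ[ℚ] (Fin 2 → ℚ) :=
    { toFun := fun w => ![w.1 3, w.1 4]
      map_add' := by intro x y; ext i; fin_cases i <;> simp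
      map_smul' := by intro c x; ext i; fin_cases i <;> simp
      invFun := fun v => ⟨![0, 0, 0, v 0, v 1], by simp only [th]; rw [memA]; simp⟩
      left_inv := by
        rintro ⟨w, hw⟩
        have hw' : w ∈ eigenspace mA 0 := hw
        rw [memA] at hw'
        apply Subtype.ext
        simp only
        rw [eq5]
        have h0 : w 0 = 0 := by linarith [hw'.1]
        have h1 : w 1 = 0 := by linarith [hw'.2.1]
        have h2 : w 2 = 0 := by linarith [hw'.2.2.1]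
        simp [h0, h1, h2]
      right_inv := by
        intro v
        ext i; fin_cases i <;> simp }
  rw [e.finrank_eq]
  simp

lemma finrankB : finrank ℚ (eigenspace mB (th 0)) = 1 := by
  let e : (eigenspace mB (th 0)) ≃ₗ[ℚ] (Fin 1 → ℚ) :=
    { toFun := fun w => ![w.1 0]
      map_add' := by intro x y; ext i; fin_cases i; simp
      map_smul' := by intro c x; ext i; fin_cases i; simp
      invFun := fun v => ⟨![v 0, 0, 0, 0, 0], by simp only [th]; rw [memB]; simp⟩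
      left_inv := by
        rintro ⟨w, hw⟩
        have hw' : w ∈ eigenspace mB 0 := hw
        rw [memB] at hw'
        apply Subtype.ext
        simp only
        rw [eq5]
        have h1 : w 1 = 0 := by linarith [hw'.1]
        have h4 : w 4 = 0 := by linarith [hw'.2.2.2.2]
        have h3 : w 3 = 0 := by linarith [hw'.2.2.2.1]
        have h2 : w 2 = 0 := by linarith [hw'.2.2.1]
        simp [h4, h1, h2, h3]
      right_inv := by
        intro v
        ext i; fin_cases i; simp }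
  rw [e.finrank_eq]
  simp

/-- There are `A, A*` on `ℚ^5` satisfying conditions 1-4 of the question with `d = δ = 2`, such
that `dim V_0 = 2` and `dim V*_0 = 1`; so part (c) of Q1 fails. -/
theorem result : ∃ (A As : End ℚ (Fin 5 → ℚ)) (θ θs : Fin (2 + 1) → ℚ),
    IsOrdering A As θ ∧ IsOrdering As A θs ∧ IsIrreduciblePair A As ∧
    finrank ℚ (eigenspace A (θ 0)) = 2 ∧ finrank ℚ (eigenspace As (θs 0)) = 1 :=
  ⟨mA, mB, th, th, ordA, ordB, irred, finrankA, finrankB⟩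

end Pool.Agent.Results.MP_d2cf4a_al.DimFail
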